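import Pool.Agent.H430R3.Alpha
import Pool.Agent.Helper636.BwTree

/-!
Graphs without an induced star `K_{1,d}` and of sim-width at most `k` have tree-independence
number at most `14 k (d - 1) + 3`.
-/

set_option autoImplicit false
set_option linter.unusedSectionVars false

namespace Pool.Agent.Results.MP_bd25ec_co.LinearBound

/-- The indexed pairs `(x i, y i)`, `i < m`, are the edges of an induced matching of `G` with `m`
edges, every edge having its end `x i` in `A` and its end `y i` outside `A`. -/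
def CrossingInducedMatching {V : Type} (G : SimpleGraph V) (A : Set V) (m : ℕ)
    (x y : Fin m → V) : Prop :=
  (∀ i, G.Adj (x i) (y i) ∧ x i ∈ A ∧ y i ∉ A) ∧
    ∀ i j, i ≠ j → ¬ G.Adj (x i) (x j) ∧ ¬ G.Adj (x i) (y j) ∧ ¬ G.Adj (y i) (y j)

/-- The sim-width of the finite graph `G` is at most `k`: either `G` has at most one vertex, or
there are a tree `T` of maximum degree at most 3 and a bijection `L` from the vertices of `G` to
the leaves of `T` such that for every edge `uw` of `T` and the set `A` of vertices of `G` mapped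
to the component of `u` in `T - uw`, every induced matching of `G` whose edges all join `A` to its
complement has at most `k` edges. -/
def SimWidthLE {V : Type} [Fintype V] (G : SimpleGraph V) (k : ℕ) : Prop :=
  Fintype.card V ≤ 1 ∨
    ∃ (n : ℕ) (T : SimpleGraph (Fin n)) (L : V → Fin n),
      T.IsTree ∧ (∀ w, (T.neighborSet w).ncard ≤ 3) ∧ Function.Injective L ∧
      (∀ w, (T.neighborSet w).ncard = 1 ↔ ∃ v, L v = w) ∧
      ∀ u w, T.Adj u w → ∀ (m : ℕ) (x y : Fin m → V),
        CrossingInducedMatching G {v | (T.deleteEdges {s(u, w)}).Reachable u (L v)} m x y → m ≤ k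

/-- The tree-independence number of `G` is at most `c`: there is a tree decomposition of `G`
(a tree `T` on `Fin n` with bags `B i`) in which every independent set contained in a bag has at
most `c` elements. -/
def TreeAlphaLE {V : Type} [Fintype V] (G : SimpleGraph V) (c : ℕ) : Prop :=
  ∃ (n : ℕ) (T : SimpleGraph (Fin n)) (B : Fin n → Set V),
    T.IsTree ∧ (∀ v, ∃ i, v ∈ B i) ∧
    (∀ u v, G.Adj u v → ∃ i, u ∈ B i ∧ v ∈ B i) ∧
    (∀ v, (T.induce {i | v ∈ B i}).Connected) ∧
    ∀ i, ∀ I : Finset V, (I : Set V) ⊆ B i → G.IsIndepSet (I : Set V) → I.card ≤ c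

open Finset Pool.Agent.H430R3.TD Pool.Agent.Helper636.Bw in
theorem main_aux (d k : ℕ) (hd : 2 ≤ d) (V : Type) [Fintype V] [DecidableEq V] (G : SimpleGraph V)
    (hfree : ¬ ∃ (c : V) (f : Fin d → V), Function.Injective f ∧ (∀ i, G.Adj c (f i)) ∧
      ∀ i j, ¬ G.Adj (f i) (f j))
    (hs : ∃ (n : ℕ) (T : SimpleGraph (Fin n)) (L : V → Fin n),
      T.IsTree ∧ (∀ w, (T.neighborSet w).ncard ≤ 3) ∧ Function.Injective L ∧
      (∀ w, (T.neighborSet w).ncard = 1 ↔ ∃ v, L v = w) ∧
      ∀ u w, T.Adj u w → ∀ (m : ℕ) (x y : Fin m → V),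
        CrossingInducedMatching G {v | (T.deleteEdges {s(u, w)}).Reachable u (L v)} m x y →
          m ≤ k) :
    ∃ n par B, IsTD G (al G) univ (∅ : Finset V)
      (3 * ((1 + 1) * (2 * k * (d - 1))) + 3 + 2 * k * (d - 1)) n par B := by
  classical
  obtain ⟨n, T, L, hT, hdeg, hL, _, hsim⟩ := hs
  refine td_of_sep al_empty al_singleton al_mono al_union 1 (2 * k * (d - 1)) al_sep ?_ univ ∅
    (empty_subset _) (by rw [al_empty]; omega)
  intro Q hQ
  by_contra hcon
  refine tree_lemma (E := (Q : Set V)) T hT.isAcyclic hT.connected.preconnected hdeg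
    (fun x => L x.1) (fun x y h => Subtype.ext (hL h)) Set.ncard (Set.ncard_empty _)
    (fun e => by rw [Set.ncard_singleton]) (fun A B h => Set.ncard_le_ncard h (Set.toFinite _))
    (fun A B => Set.ncard_union_le A B) ((1 + 1) * (2 * k * (d - 1)))
    (by rw [Set.ncard_coe_finset, hQ]; omega) ?_
  intro u v huv
  by_contra hbig
  push Not at hbig
  obtain ⟨hb1, hb2⟩ := hbig
  obtain ⟨S, hS, hScov⟩ := cut_alpha (k := k) hd hfree (fun x => Rch T u v (L x)) (by
    rintro ⟨x, y, h1, h2⟩
    have := hsim u v huv (k + 1) x y ⟨h1, h2⟩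
    omega)
  apply hcon
  have e1 : ({x | ∃ h : x ∈ (Q : Set V), Rch T u v (L (⟨x, h⟩ : (Q : Set V)).1)} : Set V) =
      ((Q.filter fun x => Rch T u v (L x) : Finset V) : Set V) := by
    ext x
    simp
  have e2 : ((Q : Set V) \ {x | ∃ h : x ∈ (Q : Set V), Rch T u v (L (⟨x, h⟩ : (Q : Set V)).1)} :
      Set V) = ((Q.filter fun x => ¬ Rch T u v (L x) : Finset V) : Set V) := by
    ext x
    simp only [Set.mem_sdiff, Set.mem_ofPred_eq, coe_filter, exists_prop, mem_coe]
    tauto
  rw [e1, Set.ncard_coe_finset] at hb1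
  rw [e2, Set.ncard_coe_finset] at hb2
  have hsum := card_filter_add_card_filter_not (s := Q) (fun x => Rch T u v (L x))
  refine ⟨S, univ.filter fun x => Rch T u v (L x) ∧ x ∉ S,
    univ.filter fun x => ¬ Rch T u v (L x) ∧ x ∉ S, ?_, ?_, ?_, ?_, ?_, hS, ?_, ?_⟩
  · intro x
    simp only [mem_filter, mem_univ, true_and]
    tauto
  · rw [disjoint_left]
    intro x hx hx'
    exact (mem_filter.1 hx').2.1 (mem_filter.1 hx).2.1
  · rw [disjoint_left]
    intro x hx hx'
    exact (mem_filter.1 hx').2.2 hx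
  · rw [disjoint_left]
    intro x hx hx'
    exact (mem_filter.1 hx').2.2 hx
  · intro x hx y hy hxy
    rcases hScov x y (mem_filter.1 hx).2.1 (mem_filter.1 hy).2.1 hxy with h | h
    · exact (mem_filter.1 hx).2.2 h
    · exact (mem_filter.1 hy).2.2 h
  · have h1 : (Q ∩ univ.filter fun x => Rch T u v (L x) ∧ x ∉ S).card ≤
        (Q.filter fun x => Rch T u v (L x)).card := by
      apply card_le_card
      intro x hx
      rw [mem_inter, mem_filter] at hx
      exact mem_filter.2 ⟨hx.1, hx.2.2.1⟩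
    omega
  · have h1 : (Q ∩ univ.filter fun x => ¬ Rch T u v (L x) ∧ x ∉ S).card ≤
        (Q.filter fun x => ¬ Rch T u v (L x)).card := by
      apply card_le_card
      intro x hx
      rw [mem_inter, mem_filter] at hx
      exact mem_filter.2 ⟨hx.1, hx.2.2.1⟩
    omega

/-- For all `d ≥ 2` and `k`, every finite graph with no induced star `K_{1,d}` and of sim-width at
most `k` has tree-independence number at most `14 k (d - 1) + 3`. -/
theorem result (d k : ℕ) (hd : 2 ≤ d) (V : Type) [Fintype V] (G : SimpleGraph V)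
    (hfree : IsEmpty (completeBipartiteGraph (Fin 1) (Fin d) ↪g G)) (hs : SimWidthLE G k) :
    TreeAlphaLE G (14 * k * (d - 1) + 3) := by
  classical
  have hfree' : ¬ ∃ (c : V) (f : Fin d → V), Function.Injective f ∧ (∀ i, G.Adj c (f i)) ∧
      ∀ i j, ¬ G.Adj (f i) (f j) := by
    rintro ⟨c, f, h1, h2, h3⟩
    refine hfree.false ⟨⟨Sum.elim (fun _ => c) f, ?_⟩, ?_⟩
    · rintro (a | a) (b | b) hab
      · rw [Subsingleton.elim a b]
      · exact absurd hab (h2 b).ne
      · exact absurd hab (h2 a).ne'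
      · exact congrArg Sum.inr (h1 hab)
    · rintro (a | a) (b | b)
      · simp
      · simpa using h2 b
      · simpa using (h2 a).symm
      · simpa using h3 a b
  rcases hs with hs | hs
  · refine ⟨1, ⊤, fun _ => Set.univ, ?_, fun v => ⟨0, trivial⟩,
      fun u v _ => ⟨0, trivial, trivial⟩, ?_, ?_⟩
    · have hb : (⊤ : SimpleGraph (Fin 1)) = ⊥ := Subsingleton.elim _ _
      rw [hb]
      refine SimpleGraph.IsTree.mk (SimpleGraph.Connected.mk ?_) SimpleGraph.isAcyclic_bot
      intro a b
      rw [Subsingleton.elim a b]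
    · intro v
      have : Nonempty {i : Fin 1 | v ∈ (Set.univ : Set V)} := ⟨⟨0, trivial⟩⟩
      refine SimpleGraph.Connected.mk ?_
      rintro ⟨a, ha⟩ ⟨b, hb⟩
      have hab : a = b := Subsingleton.elim _ _
      subst hab
      exact SimpleGraph.Reachable.refl _
    · intro i I _ _
      have := Finset.card_le_univ I
      omega
  · obtain ⟨n, par, B, hB⟩ := main_aux d k hd V G hfree' hs
    obtain ⟨h1, h2, h3, h4, h5⟩ := hB.exists_tree
    refine ⟨n, Pool.Agent.H430R3.TD.parTree n par, fun i => (B i : Set V), h1, h2, h3, ?_, ?_⟩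
    · intro v
      obtain ⟨i, hi⟩ := h2 v
      have : Nonempty {i : Fin n | v ∈ (B i : Set V)} := ⟨⟨i, hi⟩⟩
      refine SimpleGraph.Connected.mk ?_
      rintro ⟨a, ha⟩ ⟨b, hb⟩
      obtain ⟨p, hp⟩ := h4 v a b ha hb
      exact ⟨p.induce _ hp⟩
    · intro i I hI hind
      have h6 : I.card ≤ Pool.Agent.H430R3.TD.al G (B i) := by
        apply Pool.Agent.H430R3.TD.le_al
        · intro x hx y hy hxy
          exact hind (by exact_mod_cast hx) (by exact_mod_cast hy) hxy.ne hxy
        · exact_mod_cast hI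
      have h7 := h5 i
      have h8 : 14 * k * (d - 1) + 3 =
          3 * ((1 + 1) * (2 * k * (d - 1))) + 3 + 2 * k * (d - 1) := by ring
      omega

end Pool.Agent.Results.MP_bd25ec_co.LinearBound
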